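import Pool.Agent.helper77.BND.SpecB
import Pool.Agent.helper70.BND.DefsH

/-!
# Project bnd (MP_376aaf_an), block L: `K₁(A) = ℤ` for the band systems with `IsB1` (rank one). Rows bnd:L*

RULES as in SpecD. Report: /team-store/MP_376aaf_bands_report_helper70.md. `import Pool.Agent.helper53.BND.SpecL`, `namespace Pool.Agent.BND`,
`open Pool.Agent.CZ Pool.Agent.PV`, one file per row `Pool/Agent/<seat>/BND/XXX.lean`, auxiliary lemmas prefixed `XXX_`. Other rows enter only as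
hypotheses (from YYY, ..); rows wait for nobody. Rows of SpecB / SpecD: BDM BFX BFG BFE BFA BFM BSA BLF BEX LFT EME FLV WDC XSU MIN. Rows of project pv
(`Pool/Agent/helper77/PV/SpecA.lean`, `SpecC.lean`, `Iface.lean`, `helper53/PV/SpecD.lean`): K1R K1M K1B K1G K1Z K1C K0E K0B K0G CS0 GLC TRI RNK KS PVS
DZP FUN.

PLAN. `g ∈ GL_κ(S m)` is a family of invertible matrices `mx G e s` over `κ × Fin (h e)`, continuous on the bands, block diagonal at the ends. (1) It has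
logarithms `lam` of the determinants (`IsLog`) with winding numbers `nn e`; on `G m` they can be made 0 (`bas`); on the level `m + 1`, by `lft`, `bas`,
`prm`, all of them are 0 (LST). (2) If all `nn e = 0` then `[g] = 0` (LZL): multiply with a null homotopic `p` with `p = g⁻¹` at the vertices (LPF); on every
band there remains a loop based at 1 with winding number 0, null homotopic after adding 1's (LLP, LEX). So `K₁(S m) → K₁(S (m + 1))` is 0 (LKZ), and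
`ι_* K₁(C(X)) = 0` in `K₁(A)` (LIX, LI0). (3) The rank is injective on `K₀(C(X))` (LFP, LR0). (4) Pimsner-Voiculescu: `K₁(A) = {z ∈ K₀(C(X)) : al z = z} = ℤ` (LK1).
-/

set_option autoImplicit false

open scoped Topology Matrix
open Filter Finset

namespace Pool.Agent.BND

open Pool.Agent.CZ Pool.Agent.PV

/-! ## Definitions -/

/-- the matrix of the family `G` at the letter `(e, s)` -/
def mx {κ : Type} (l : Lv) (G : κ → κ → ℕ → ℝ → ℕ → ℕ → ℂ) (e : ℕ) (s : ℝ) :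
    Matrix (κ × Fin (l.h e)) (κ × Fin (l.h e)) ℂ := Matrix.of fun p q => G p.1 q.1 e s p.2 q.2

/-- a family of invertible matrices -/
structure IsGF (l : Lv) {κ : Type} [Fintype κ] [DecidableEq κ] (G : κ → κ → ℕ → ℝ → ℕ → ℕ → ℂ) : Prop where
  fm : ∀ a b, IsFm l (G a b)
  det : ∀ e s, e < l.N → s ∈ U → (mx l G e s).det ≠ 0

/-- `G` is the family of the matrix `g` over `T` (`T = S m`) -/
def HF (B : BS) [CompactSpace ↥(XS B)] {A : Type} [CStarAlgebra A] (c : ℤ → A →ₗ[ℂ] C(↥(XS B), ℂ)) (m : ℕ) {T : Subalgebra ℂ A} {κ : Type}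
    (g : Matrix κ κ T) (G : κ → κ → ℕ → ℝ → ℕ → ℕ → ℂ) : Prop := ∀ a b, Fam B c m ((g a b : T) : A) (G a b)

/-- the product of two families -/
def fmul (l : Lv) {κ : Type} [Fintype κ] (G G' : κ → κ → ℕ → ℝ → ℕ → ℕ → ℂ) : κ → κ → ℕ → ℝ → ℕ → ℕ → ℂ :=
  fun a b e s i j => ∑ k : κ, ∑ r ∈ range (l.h e), G a k e s i r * G' k b e s r j

/-- the block diagonal matrix of a word `w` in letters of any kind; `η` heights, `x a` the block of the letter `a` -/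
def bg {ι : Type} (η : ι → ℕ) : List ι → (ι → ℕ → ℕ → ℂ) → ℕ → ℕ → ℂ
  | [], _, _, _ => 0
  | a :: w, x, i, j => if i < η a ∧ j < η a then x a i j else if η a ≤ i ∧ η a ≤ j then bg η w x (i - η a) (j - η a) else 0

/-- the `1 × 1` matrix `det g` -/
def detU {C : Type} [CommRing C] {ι : Type} [Fintype ι] [DecidableEq ι] (g : (Matrix ι ι C)ˣ) : (Matrix Unit Unit C)ˣ :=
  Units.map ((Matrix.scalar Unit : C →+* Matrix Unit Unit C) : C →* Matrix Unit Unit C) (Units.map (Matrix.detMonoidHom : Matrix ι ι C →* C) g)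

/-! ## 1. Block diagonal matrices, families of invertible matrices -/

/-- ROW bnd:LBD (medium). (1) Induction on `w`: `κ × Fin (η a + S) ≃ (κ × Fin (η a)) ⊕ (κ × Fin S)` (`finSumFinEquiv`, `Equiv.prodSumDistrib`), the matrix becomes `fromBlocks X 0 0 Y` (`Matrix.det_submatrix_equiv_self`, `Matrix.det_fromBlocks_zero₂₁`). `((a :: w).map η).sum` is `η a + (w.map η).sum`.
(2) Induction on `u`: both `i, j < h a`: `fp = 0`; both `≥ h a`: shift; otherwise one `fp` is 0 and the other is not. -/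
def LBD_stmt : Prop := (∀ (ι κ : Type) [Fintype κ] [DecidableEq κ] (η : ι → ℕ) (w : List ι) (x : κ → κ → ι → ℕ → ℕ → ℂ),
  (Matrix.of fun p q : κ × Fin ((w.map η).sum) => bg η w (x p.1 q.1) p.2 q.2).det =
    (w.map fun a => (Matrix.of fun p q : κ × Fin (η a) => x p.1 q.1 a p.2 q.2).det).prod) ∧
  ∀ (h : ℕ → ℕ) (u : List ℕ) (x : ℕ → ℕ → ℕ → ℂ) (i j : ℕ), i < (u.map h).sum → j < (u.map h).sum → bd h u x i j = bg h u x i j

/-- ROW bnd:LBE (short-medium; from LBD). `l.h e = ((l.W e b).map l.h).sum` (`ht`); transport along this equality (`Fin.castOrderIso` / `finCongr` and `Matrix.det_submatrix_equiv_self`, or `obtain` and `subst` after generalising `l.h e`). -/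
def LBE_stmt : Prop := ∀ l : Lv, IsLv l → ∀ (κ : Type) [Fintype κ] [DecidableEq κ] (e : ℕ) (b : Bool) (x : κ → κ → ℕ → ℕ → ℕ → ℂ), e < l.N →
  (Matrix.of fun p q : κ × Fin (l.h e) => bd l.h (l.W e b) (x p.1 q.1) p.2 q.2).det =
    ((l.W e b).map fun v => (Matrix.of fun p q : κ × Fin (l.h v) => x p.1 q.1 v p.2 q.2).det).prod

/-- ROW bnd:LGV (medium; from BDM). The inverse family: `G' a b e s i j = (mx l G e s)⁻¹ (a, i) (b, j)` for `i, j < h e`, and 0 otherwise. Continuous on `U` (`A⁻¹ = (det A)⁻¹ • adjugate A`, `det ≠ 0`: `Matrix.inv_def`). Vertices: clear. Ends: let `D` be the matrix with the entries `bd h (W e b) (fun v => G' a b v 0) i j`.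
By BDM 1 `mx G e b * D` has the entries `bd h (W e b) (fun v p q => ∑ c k, G a c v 0 p k * G' c b v 0 k q) i j = bd (fun v p q => [a = b] [p = q]) i j`, which is 1 (BDM 3; `bd` of 0 is 0). So `D = (mx G e b)⁻¹`. -/
def LGV_stmt : Prop := ∀ l : Lv, IsLv l → ∀ (κ : Type) [Fintype κ] [DecidableEq κ] (G : κ → κ → ℕ → ℝ → ℕ → ℕ → ℂ), IsGF l G →
  ∃ G' : κ → κ → ℕ → ℝ → ℕ → ℕ → ℂ, IsGF l G' ∧ ∀ e s, e < l.N → s ∈ U → mx l G e s * mx l G' e s = 1 ∧ mx l G' e s * mx l G e s = 1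

/-- ROW bnd:LGM (medium; from BDM, BFA, BFM). Products. (1) `mx (fmul G G') = mx G * mx G'` (`Finset.sum_range`, `Fintype.sum_prod_type`). (2) `fmul G G' a b` is IsFm: continuity, vertices clear; ends: BDM 1. (3) `(g g') a b = ∑ k, g a k * g' k b`: BFM for every summand (with IsFm), BFA for the finite sum. -/
def LGM_stmt : Prop := (∀ (l : Lv) (κ : Type) [Fintype κ] [DecidableEq κ] (G G' : κ → κ → ℕ → ℝ → ℕ → ℕ → ℂ) (e : ℕ) (s : ℝ),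
    mx l (fmul l G G') e s = mx l G e s * mx l G' e s) ∧
  (∀ l : Lv, IsLv l → ∀ (κ : Type) [Fintype κ] [DecidableEq κ] (G G' : κ → κ → ℕ → ℝ → ℕ → ℕ → ℂ), IsGF l G → IsGF l G' → IsGF l (fmul l G G')) ∧
  ∀ (B : BS) (M : ℕ → ℕ → ℕ → ℕ) [CompactSpace ↥(XS B)] (α : ↥(XS B) ≃ₜ ↥(XS B)) (A : Type) [CStarAlgebra A]
  (ι : C(↥(XS B), ℂ) →⋆ₐ[ℂ] A) (u : unitary A) (c : ℤ → A →ₗ[ℂ] C(↥(XS B), ℂ)), CPr B M α ι u c → ∀ S : ℕ → Subalgebra ℂ A, IsSB B ι u c S →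
  ∀ (m : ℕ) (κ : Type) [Fintype κ] [DecidableEq κ] (g g' : Matrix κ κ (S m)) (G G' : κ → κ → ℕ → ℝ → ℕ → ℕ → ℂ), (∀ a b, IsFm (B.L m) (G a b)) →
    (∀ a b, IsFm (B.L m) (G' a b)) → HF B c m g G → HF B c m g' G' → HF B c m (g * g') (fmul (B.L m) G G')

/-- ROW bnd:LGX (short-medium; from BFG, BFE, BFA, LGM). The family of an invertible matrix. BFG for the entries of `g` and of `g⁻¹`: `G`, `G'`. LGM 3: `fmul G G'` is the family of `g g⁻¹ = 1`; by BFA 1 / 3 and BFE it is `[a = b] [i = j]` for all letters, so `mx G e s * mx G' e s = 1` (LGM 1) and `det ≠ 0`. -/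
def LGX_stmt : Prop := ∀ (B : BS) (M : ℕ → ℕ → ℕ → ℕ) [CompactSpace ↥(XS B)] (α : ↥(XS B) ≃ₜ ↥(XS B)) (A : Type) [CStarAlgebra A]
  (ι : C(↥(XS B), ℂ) →⋆ₐ[ℂ] A) (u : unitary A) (c : ℤ → A →ₗ[ℂ] C(↥(XS B), ℂ)), CPr B M α ι u c → ∀ S : ℕ → Subalgebra ℂ A, IsSB B ι u c S →
  ∀ (m : ℕ) (κ : Type) [Fintype κ] [DecidableEq κ] (g : (Matrix κ κ (S m))ˣ), ∃ G, IsGF (B.L m) G ∧ HF B c m (g : Matrix κ κ (S m)) G

/-- ROW bnd:LGU (medium; from BFX, BFE, BFA, LGV, LGM). Every family of invertible matrices is that of an invertible matrix over `S m`. BFX for the entries of `G` and of `G'` (LGV); the products have the family `[a = b] [i = j]` (LGM 1, 3), so they are 1 (BFA 1 / 3, BFE). -/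
def LGU_stmt : Prop := ∀ (B : BS) (M : ℕ → ℕ → ℕ → ℕ) [CompactSpace ↥(XS B)] (α : ↥(XS B) ≃ₜ ↥(XS B)) (A : Type) [CStarAlgebra A]
  (ι : C(↥(XS B), ℂ) →⋆ₐ[ℂ] A) (u : unitary A) (c : ℤ → A →ₗ[ℂ] C(↥(XS B), ℂ)), CPr B M α ι u c → ∀ S : ℕ → Subalgebra ℂ A, IsSB B ι u c S →
  ∀ (m : ℕ) (κ : Type) [Fintype κ] [DecidableEq κ] (G : κ → κ → ℕ → ℝ → ℕ → ℕ → ℂ), IsGF (B.L m) G →
    ∃ g : (Matrix κ κ (S m))ˣ, HF B c m (g : Matrix κ κ (S m)) G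

/-- ROW bnd:LHT (medium; from LGU, BFE, BFA, K1M). Homotopies of families. For `τ ∈ [0, 1]` LGU gives `g τ` with the family `G τ`; `g 0 = g₀`, `g 1 = g₁` (BFE). Continuity of `τ ↦ g τ a b` in the norm of `A`: `a = ∑_(|n| ≤ H) ι (c n a) u^n` (`sum`, `H = ∑ e < N, h e`), so `‖a‖ ≤ ∑_n ‖c n a‖ ≤ (2 H + 1) sup |family|`
(`Fam`; every `x m` is some `emb e s i`); the families are jointly continuous on the compact set `U × U`, so uniformly continuous. So `Htp g₀ g₁`: K1M. -/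
def LHT_stmt : Prop := ∀ (B : BS) (M : ℕ → ℕ → ℕ → ℕ) [CompactSpace ↥(XS B)] (α : ↥(XS B) ≃ₜ ↥(XS B)) (A : Type) [CStarAlgebra A]
  (ι : C(↥(XS B), ℂ) →⋆ₐ[ℂ] A) (u : unitary A) (c : ℤ → A →ₗ[ℂ] C(↥(XS B), ℂ)), CPr B M α ι u c → ∀ S : ℕ → Subalgebra ℂ A, IsSB B ι u c S →
  ∀ (m : ℕ) (κ : Type) [Fintype κ] [DecidableEq κ] (G : ℝ → κ → κ → ℕ → ℝ → ℕ → ℕ → ℂ), (∀ τ ∈ U, IsGF (B.L m) (G τ)) →
  (∀ a b e i j, e < (B.L m).N → i < (B.L m).h e → j < (B.L m).h e → ContinuousOn (fun p : ℝ × ℝ => G p.1 a b e p.2 i j) (U ×ˢ U)) →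
  ∀ g₀ g₁ : (Matrix κ κ (S m))ˣ, HF B c m (g₀ : Matrix κ κ (S m)) (G 0) → HF B c m (g₁ : Matrix κ κ (S m)) (G 1) → k1 g₀ = k1 g₁

/-! ## 2. Logarithms of the determinants -/

/-- ROW bnd:LLG (medium; from LBE). Vertices: `lam v s = log (det (mx G v 0))`, `nn v = 0`. A band `e`: `f s = det (mx G e s)` is continuous and `≠ 0` on `U`; at the ends (`ends`, LBE) `f b = ∏_(v ∈ W e b) det (mx G v 0) = exp (∑ lam v 0)`. Lift `f` through `exp` (`Complex.isCoveringMap_exp`, `IsCoveringMap.liftPath`)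
with the start `∑_(W e false) lam v 0`; `exp (lam e 1) = exp (∑_(W e true) lam v 0)` gives `nn e` (`Complex.exp_eq_exp_iff_exists_int`). -/
def LLG_stmt : Prop := ∀ l : Lv, IsLv l → ∀ (κ : Type) [Fintype κ] [DecidableEq κ] (G : κ → κ → ℕ → ℝ → ℕ → ℕ → ℂ), IsGF l G →
  ∃ (lam : ℕ → ℝ → ℂ) (nn : ℕ → ℤ), IsLog l lam nn ∧ ∀ e s, e < l.N → s ∈ U → (mx l G e s).det = Complex.exp (lam e s)

/-- ROW bnd:LNZ (short). `lam' e s = lam e s + 2 π i ((W e false).map z).sum`; for a vertex `W v b = [v]`. -/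
def LNZ_stmt : Prop := ∀ l : Lv, IsLv l → ∀ (lam : ℕ → ℝ → ℂ) (nn : ℕ → ℤ), IsLog l lam nn → ∀ z : ℕ → ℤ, ∃ lam' : ℕ → ℝ → ℂ,
  IsLog l lam' (fun e => nn e - ((l.W e true).map z).sum + ((l.W e false).map z).sum) ∧ ∀ e s, Complex.exp (lam' e s) = Complex.exp (lam e s)

/-- ROW bnd:LUP (medium; from WDC, XSU). The family on the level `m + 1` is block diagonal along the words. Let `x (m + 1) = emb e' s i'` (XSU), `n = i' - j'`: `c n a x = G'' e' s i' j'`. By the definition of `XS` `x m = st m e' s i'`; the word is `P ++ q :: Q`, `i' = hw P + j`, `st m e' s i' = emb q.1 q.2 j` (WDC; `lett`), so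
`c n a x = G q.1 q.2 j (j' - hw P)` if `hw P ≤ j' < hw P + h q`, and 0 otherwise. This is `bg` (induction on `P`). -/
def LUP_stmt : Prop := ∀ (B : BS) (M : ℕ → ℕ → ℕ → ℕ) [CompactSpace ↥(XS B)] (α : ↥(XS B) ≃ₜ ↥(XS B)) (A : Type) [CStarAlgebra A]
  (ι : C(↥(XS B), ℂ) →⋆ₐ[ℂ] A) (u : unitary A) (c : ℤ → A →ₗ[ℂ] C(↥(XS B), ℂ)), CPr B M α ι u c →
  ∀ (m : ℕ) (a : A) (G G'' : ℕ → ℝ → ℕ → ℕ → ℂ), Fam B c m a G → Fam B c (m + 1) a G'' →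
  ∀ e' s i' j', e' < (B.L (m + 1)).N → s ∈ U → i' < (B.L (m + 1)).h e' → j' < (B.L (m + 1)).h e' →
    G'' e' s i' j' = bg (fun q : ℕ × ℝ => (B.L m).h q.1) (B.w m e' s) (fun q => G q.1 q.2) i' j'

/-- ROW bnd:LDU (short-medium; from LUP, LBD). Entrywise LUP; `h' e' = hw (w m e' s) = ((w m e' s).map (h ∘ fst)).sum` (`htw`, transport along this equality), LBD 1. -/
def LDU_stmt : Prop := ∀ (B : BS) (M : ℕ → ℕ → ℕ → ℕ) [CompactSpace ↥(XS B)] (α : ↥(XS B) ≃ₜ ↥(XS B)) (A : Type) [CStarAlgebra A]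
  (ι : C(↥(XS B), ℂ) →⋆ₐ[ℂ] A) (u : unitary A) (c : ℤ → A →ₗ[ℂ] C(↥(XS B), ℂ)), CPr B M α ι u c →
  ∀ (m : ℕ) (κ : Type) [Fintype κ] [DecidableEq κ] (g : Matrix κ κ A) (G G'' : κ → κ → ℕ → ℝ → ℕ → ℕ → ℂ), (∀ a b, Fam B c m (g a b) (G a b)) →
  (∀ a b, Fam B c (m + 1) (g a b) (G'' a b)) → ∀ e' s, e' < (B.L (m + 1)).N → s ∈ U →
    (mx (B.L (m + 1)) G'' e' s).det = ((B.w m e' s).map fun q => (mx (B.L m) G q.1 q.2).det).prod

/-- ROW bnd:LST (medium; from LGX, LLG, LNZ, LDU). `G` for `g` (LGX), `lam, nn` (LLG); `bas m nn` and LNZ: `lam₁`, `nn₁ = 0` on `Gs m`. `lft`: `Lam`, `nn'`. `G''` for the image of `g` in `S (m + 1)` (LGX); LDU: `det (mx G'' e' s) = ∏ exp (lam q.1 q.2) = exp (sw lam₁ (w m e' s)) = exp (Lam e' s)` (`Complex.exp_list_sum`, `lett`). `bas (m + 1) nn'`: `z`;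
LNZ on the level `m + 1`: the new numbers `nn' e' - ∑_(W true) z + ∑_(W false) z` are 0: on `Gs (m + 1)` by `bas`, outside because `nn' e' = 0` and the end words are permutations of each other (`prm`, `List.Perm.sum_eq`). (`IsLog` uses the numbers only for `e < N`.) -/
def LST_stmt : Prop := ∀ (B : BS) (M : ℕ → ℕ → ℕ → ℕ) [CompactSpace ↥(XS B)] (α : ↥(XS B) ≃ₜ ↥(XS B)) (A : Type) [CStarAlgebra A]
  (ι : C(↥(XS B), ℂ) →⋆ₐ[ℂ] A) (u : unitary A) (c : ℤ → A →ₗ[ℂ] C(↥(XS B), ℂ)), CPr B M α ι u c → ∀ S : ℕ → Subalgebra ℂ A, IsSB B ι u c S →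
  ∀ Gs : ℕ → Set ℕ, IsB1 B Gs → ∀ (m : ℕ) (κ : Type) [Fintype κ] [DecidableEq κ] (g : (Matrix κ κ (S m))ˣ) (h : S m ≤ S (m + 1)),
  ∃ (G'' : κ → κ → ℕ → ℝ → ℕ → ℕ → ℂ) (lam : ℕ → ℝ → ℂ), IsGF (B.L (m + 1)) G'' ∧
    HF B c (m + 1) ((umap (Subalgebra.inclusion h).toRingHom g : (Matrix κ κ (S (m + 1)))ˣ) : Matrix κ κ (S (m + 1))) G'' ∧
    IsLog (B.L (m + 1)) lam (fun _ => 0) ∧ ∀ e s, e < (B.L (m + 1)).N → s ∈ U → (mx (B.L (m + 1)) G'' e s).det = Complex.exp (lam e s)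

/-! ## 3. Elements with logarithms without winding numbers -/

/-- ROW bnd:LPD (medium; from GLC). GLC: a path `δ` of invertible matrices from 1 to `q`, extended to `ℝ` (`Set.projIcc`). Lift `det δ` through `exp` (`Complex.isCoveringMap_exp`, `IsCoveringMap.liftPath`): `ν₀`, `ν₀ 0 = 0`, `l = ν₀ 1 + 2 π i k`. `γ τ = D τ * δ τ`, `D τ` diagonal with `exp (2 π i k τ)` at one place and 1 elsewhere;
`ν τ = ν₀ τ + 2 π i k τ`. -/
def LPD_stmt : Prop := ∀ (ι : Type) [Fintype ι] [DecidableEq ι] [Nonempty ι] (q : Matrix ι ι ℂ) (l : ℂ), q.det = Complex.exp l →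
  ∃ (γ : ℝ → Matrix ι ι ℂ) (ν : ℝ → ℂ), Continuous γ ∧ Continuous ν ∧ γ 0 = 1 ∧ γ 1 = q ∧ ν 0 = 0 ∧ ν 1 = l ∧ ∀ τ ∈ U, (γ τ).det = Complex.exp (ν τ)

/-- ROW bnd:LPF (medium to long; from LPD, LBE, BDM, LGU, LHT, BFA, K1M). LPD for `q v`, `l v`: `γ v`, `ν v` (`κ × Fin (h v)` is not empty). `G τ a b v s i j = γ v τ (a, i) (b, j)` for `v < n`; for a band `e`: `bd h (W e false) (fun v p q => γ v (τ (1 - 2 s)) (a, p) (b, q)) i j` if `s ≤ 1 / 2`, and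
`bd h (W e true) (fun v p q => γ v (τ (2 s - 1)) (a, p) (b, q)) i j` if `1 / 2 ≤ s`; for `s = 1 / 2` both are `[a = b] [i = j]` (`γ v 0 = 1`, BDM 3), so it is jointly continuous. Determinants: LBE, products of `det (γ v ..) = exp (ν v ..)`; so IsGF. `G 0` is the family of 1 (BFA 1; BDM 3), `p` = the matrix of `G 1` (LGU), and
`k1 p = k1 1 = 0` (LHT, K1M). `μ e s = ∑_(W e false) ν v (1 - 2 s)` for `s ≤ 1 / 2`, `∑_(W e true) ν v (2 s - 1)` for `1 / 2 ≤ s`. (`γ v τ (a, i) (b, j)` needs `i, j < h v`: use `if hij : i < h v ∧ j < h v then γ v τ (a, ⟨i, hij.1⟩) (b, ⟨j, hij.2⟩) else 0`.) -/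
def LPF_stmt : Prop := ∀ (B : BS) (M : ℕ → ℕ → ℕ → ℕ) [CompactSpace ↥(XS B)] (α : ↥(XS B) ≃ₜ ↥(XS B)) (A : Type) [CStarAlgebra A]
  (ι : C(↥(XS B), ℂ) →⋆ₐ[ℂ] A) (u : unitary A) (c : ℤ → A →ₗ[ℂ] C(↥(XS B), ℂ)), CPr B M α ι u c → ∀ S : ℕ → Subalgebra ℂ A, IsSB B ι u c S →
  ∀ (m : ℕ) (κ : Type) [Fintype κ] [DecidableEq κ] [Nonempty κ] (q : ∀ v : ℕ, Matrix (κ × Fin ((B.L m).h v)) (κ × Fin ((B.L m).h v)) ℂ) (l : ℕ → ℂ),
  (∀ v, v < (B.L m).n → (q v).det = Complex.exp (l v)) →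
  ∃ (p : (Matrix κ κ (S m))ˣ) (G : κ → κ → ℕ → ℝ → ℕ → ℕ → ℂ) (μ : ℕ → ℝ → ℂ), IsGF (B.L m) G ∧ HF B c m (p : Matrix κ κ (S m)) G ∧ k1 p = 0 ∧
    (∀ v, v < (B.L m).n → mx (B.L m) G v 0 = q v) ∧
    ∀ e, (B.L m).n ≤ e → e < (B.L m).N → ContinuousOn (μ e) U ∧ μ e 0 = (((B.L m).W e false).map l).sum ∧ μ e 1 = (((B.L m).W e true).map l).sum ∧
      ∀ s ∈ U, (mx (B.L m) G e s).det = Complex.exp (μ e s)

/-- ROW bnd:LD1 (short-medium; from K1M). The determinant on `K₁`: on generators `⟨n, g⟩ ↦ k1 (detU g)` (`FreeAbelianGroup.lift`, `QuotientAddGroup.lift`). Relations: `detU (g h) = detU g * detU h`; `det (dsum g h) = det g * det h` (`Matrix.det_submatrix_equiv_self`, `Matrix.det_fromBlocks_zero₂₁`); a path from `g` to `h` gives the path of the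
determinants. `k1 g` is the class of `rix (equivFin ι) g`, which has the same determinant. -/
def LD1_stmt : Prop := ∀ (C : Type) [CommRing C] [TopologicalSpace C] [IsTopologicalRing C], ∃ D : K1 C →+ K1 C,
  ∀ (ι : Type) [Fintype ι] [DecidableEq ι] (g : (Matrix ι ι C)ˣ), D (k1 g) = k1 (detU g)

/-- ROW bnd:LW0 (short-medium; from LD1, KS, K1M). `z` = the unit `zU ℂ` as a `1 × 1` matrix. KS 2: `k1 g = n • k1 z`. `D (k1 g) = k1 (detU g) = 0`: the path `τ ↦ exp (τ μ)` (K1M); `D (k1 z) = k1 z` (`detU z = z`). So `n • k1 z = 0`, `n = 0` (KS 3). -/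
def LW0_stmt : Prop := ∀ (ι : Type) [Fintype ι] [DecidableEq ι] (g : (Matrix ι ι C(UnitAddCircle, ℂ))ˣ) (μ : C(UnitAddCircle, ℂ)),
  (∀ t, (g : Matrix ι ι C(UnitAddCircle, ℂ)).det t = Complex.exp (μ t)) → k1 g = 0

/-- ROW bnd:LLP (medium; from LW0, K1Z). Loops based at 1 without winding number. `f`, `μ` have equal values at 0 and 1, so they are functions on the circle (`AddCircle.liftIco`, `AddCircle.liftIco_continuous`): `g` (inverse: that of `f s`), `μ'`. LW0: `k1 g = 0`; K1Z: `g ⊕ 1_k` is joined to 1 by a path `γ` of invertible matrices over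
`C(circle, ℂ)`: `Γ₀ τ s = γ τ` evaluated at `s`, jointly continuous; `Γ τ s = Γ₀ τ s * (Γ₀ τ 0)⁻¹` (`Γ₀ 0 0 = 1`, `Γ₀ τ 1 = Γ₀ τ 0`). Extension to `ℝ`: `Set.projIcc`. -/
def LLP_stmt : Prop := ∀ (ι : Type) [Fintype ι] [DecidableEq ι] (f : ℝ → Matrix ι ι ℂ) (μ : ℝ → ℂ), ContinuousOn f U → ContinuousOn μ U → f 0 = 1 → f 1 = 1 →
  μ 0 = 0 → μ 1 = 0 → (∀ s ∈ U, (f s).det = Complex.exp (μ s)) →
  ∃ (k : ℕ) (Γ : ℝ → ℝ → Matrix (ι ⊕ Fin k) (ι ⊕ Fin k) ℂ), ContinuousOn (fun p : ℝ × ℝ => Γ p.1 p.2) (U ×ˢ U) ∧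
    (∀ τ ∈ U, ∀ s ∈ U, (Γ τ s).det ≠ 0) ∧ (∀ s ∈ U, Γ 0 s = Matrix.fromBlocks (f s) 0 0 1) ∧ (∀ s ∈ U, Γ 1 s = 1) ∧ ∀ τ ∈ U, Γ τ 0 = 1 ∧ Γ τ 1 = 1

/-- ROW bnd:LEX (medium to long; from LLP, LHT, BDM, BFA, K1B, K1M). `f = 1` at the vertices; at the ends of a band `mx F e b = 1` (`ends`, BDM 3). LLP for every band `e` (`fun s => mx F e s`): `k_e`, `Γ_e`; `k = ∑ k_e`. Index set `κ ⊕ Fin k`: `(κ ⊕ Fin k) × Fin (h e) ≃ (κ × Fin (h e)) ⊕ (Fin k × Fin (h e))` (`Equiv.sumProdDistrib`),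
`Fin k × Fin (h e) ≃ Fin k_e ⊕ Fin r` (`k_e ≤ k h e`: `Fintype.equivOfCardEq`); so `σ_e : (κ ⊕ Fin k) × Fin (h e) ≃ ((κ × Fin (h e)) ⊕ Fin k_e) ⊕ Fin r` with `σ_e (inl a, i) = inl (inl (a, i))`. `G τ` at a band `(e, s)` is `fromBlocks (Γ_e τ s) 0 0 1` reindexed by `σ_e`, at a vertex the identity: jointly continuous, IsGF (ends: the
identity, BDM 3). `G 0` is the family of `f ⊕ 1_k` (the unit `k` of K1B with blocks `f`, `1`; entries `f a b`, 0, 1: BFA), `G 1` that of 1. LHT, K1M: `k1 (f ⊕ 1_k) = 0`; K1B: `= k1 f + 0`. -/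
def LEX_stmt : Prop := ∀ (B : BS) (M : ℕ → ℕ → ℕ → ℕ) [CompactSpace ↥(XS B)] (α : ↥(XS B) ≃ₜ ↥(XS B)) (A : Type) [CStarAlgebra A]
  (ι : C(↥(XS B), ℂ) →⋆ₐ[ℂ] A) (u : unitary A) (c : ℤ → A →ₗ[ℂ] C(↥(XS B), ℂ)), CPr B M α ι u c → ∀ S : ℕ → Subalgebra ℂ A, IsSB B ι u c S →
  ∀ (m : ℕ) (κ : Type) [Fintype κ] [DecidableEq κ] (f : (Matrix κ κ (S m))ˣ) (F : κ → κ → ℕ → ℝ → ℕ → ℕ → ℂ) (μ : ℕ → ℝ → ℂ), IsGF (B.L m) F →
  HF B c m (f : Matrix κ κ (S m)) F → (∀ v, v < (B.L m).n → mx (B.L m) F v 0 = 1) →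
  (∀ e, (B.L m).n ≤ e → e < (B.L m).N → ContinuousOn (μ e) U ∧ μ e 0 = 0 ∧ μ e 1 = 0 ∧ ∀ s ∈ U, (mx (B.L m) F e s).det = Complex.exp (μ e s)) → k1 f = 0

/-- ROW bnd:LZL (short-medium; from LPF, LEX, LGM, K1M). If `κ` is empty then `g = 1`. Otherwise LPF with `q v = (mx G v 0)⁻¹`, `l v = - lam v 0`: `p`, `Gp`, `μ`. `f = g p` has the family `fmul G Gp` (LGM), the identity at the vertices; for a band `det = exp (lam e s + μ e s)` and `lam e s + μ e s` is 0 for `s = 0, 1` (`at0`, `at1`). LEX: `k1 f = 0`, and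
`k1 f = k1 g + k1 p` (K1M). -/
def LZL_stmt : Prop := ∀ (B : BS) (M : ℕ → ℕ → ℕ → ℕ) [CompactSpace ↥(XS B)] (α : ↥(XS B) ≃ₜ ↥(XS B)) (A : Type) [CStarAlgebra A]
  (ι : C(↥(XS B), ℂ) →⋆ₐ[ℂ] A) (u : unitary A) (c : ℤ → A →ₗ[ℂ] C(↥(XS B), ℂ)), CPr B M α ι u c → ∀ S : ℕ → Subalgebra ℂ A, IsSB B ι u c S →
  ∀ (m : ℕ) (κ : Type) [Fintype κ] [DecidableEq κ] (g : (Matrix κ κ (S m))ˣ) (G : κ → κ → ℕ → ℝ → ℕ → ℕ → ℂ) (lam : ℕ → ℝ → ℂ), IsGF (B.L m) G →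
  HF B c m (g : Matrix κ κ (S m)) G → IsLog (B.L m) lam (fun _ => 0) → (∀ e s, e < (B.L m).N → s ∈ U → (mx (B.L m) G e s).det = Complex.exp (lam e s)) → k1 g = 0

/-- ROW bnd:LKZ (short; from K1G, LST, LZL). `w = k1 g` (K1G), `k1map incl (k1 g) = k1 (umap incl g)` (`k1map_k1`, rfl), LST and LZL on the level `m + 1`. -/
def LKZ_stmt : Prop := ∀ (B : BS) (M : ℕ → ℕ → ℕ → ℕ) [CompactSpace ↥(XS B)] (α : ↥(XS B) ≃ₜ ↥(XS B)) (A : Type) [CStarAlgebra A]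
  (ι : C(↥(XS B), ℂ) →⋆ₐ[ℂ] A) (u : unitary A) (c : ℤ → A →ₗ[ℂ] C(↥(XS B), ℂ)), CPr B M α ι u c → ∀ S : ℕ → Subalgebra ℂ A, IsSB B ι u c S →
  ∀ Gs : ℕ → Set ℕ, IsB1 B Gs → ∀ (m : ℕ) (h : S m ≤ S (m + 1)) (hc : Continuous (Subalgebra.inclusion h).toRingHom) (w : K1 (S m)),
    k1map (Subalgebra.inclusion h).toRingHom hc w = 0

/-! ## 4. The space -/

/-- ROW bnd:LIX (medium; from K1G, K1M, K1C, BLF). `w = k1 g` (K1G). K1C: `ε`. BLF for all entries of `g` (`ε / 2`, one common `m`): `h i j x = F i j (x m)`, continuous on `XS B`. K1C: `h` is invertible and `Htp g h`, so `k1 g = k1 h` (K1M). The entries `f` of `h` and of `h⁻¹` satisfy `f x = f y` if `x m = y m` (for `h⁻¹`: `h⁻¹ x` is the inverse of the matrix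
`h x`). For such `f`: `ι f ∈ S m`: `c 0 (ι f) = f`, `c n (ι f) = 0` for `n ≠ 0` (`cval` with `k = 0`), `ι f = ι f * up u 0`. So `umap ι h` is the image of a unit over `S m`. -/
def LIX_stmt : Prop := ∀ (B : BS) (M : ℕ → ℕ → ℕ → ℕ) [CompactSpace ↥(XS B)] (α : ↥(XS B) ≃ₜ ↥(XS B)) (A : Type) [CStarAlgebra A]
  (ι : C(↥(XS B), ℂ) →⋆ₐ[ℂ] A) (u : unitary A) (c : ℤ → A →ₗ[ℂ] C(↥(XS B), ℂ)), CPr B M α ι u c → ∀ S : ℕ → Subalgebra ℂ A, IsSB B ι u c S →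
  ∀ (hi : Continuous ι.toAlgHom.toRingHom) (w : K1 C(↥(XS B), ℂ)),
    ∃ (m : ℕ) (w' : K1 (S m)), k1map ι.toAlgHom.toRingHom hi w = k1map (S m).val.toRingHom continuous_subtype_val w'

/-- ROW bnd:LI0 (short; from LIX, LKZ, FUN, BSA). `S` from BSA; LIX; `(S m).val = (S (m + 1)).val ∘ inclusion` (FUN), LKZ (`mono` gives `S m ≤ S (m + 1)`; the inclusion is continuous). -/
def LI0_stmt : Prop := ∀ (B : BS) (M : ℕ → ℕ → ℕ → ℕ) [CompactSpace ↥(XS B)] (α : ↥(XS B) ≃ₜ ↥(XS B)) (A : Type) [CStarAlgebra A]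
  (ι : C(↥(XS B), ℂ) →⋆ₐ[ℂ] A) (u : unitary A) (c : ℤ → A →ₗ[ℂ] C(↥(XS B), ℂ)), CPr B M α ι u c →
  ∀ Gs : ℕ → Set ℕ, IsB1 B Gs → ∀ (hi : Continuous ι.toAlgHom.toRingHom) (w : K1 C(↥(XS B), ℂ)), k1map ι.toAlgHom.toRingHom hi w = 0

/-- ROW bnd:LFP (medium; from TRI, BEX, LFT, EME, FLV). For every floor `(v, j)` of a vertex TRI for `E`, `F` at `emb v 0 j` (equal traces, same `r`): `x₀ y₀ = E`, `y₀ x₀ = F`, normalised (`E x₀ = x₀`, `F y₀ = y₀`: replace `x₀` by `E x₀ F`, `y₀` by `F y₀ E`). For a floor `(e, i)` of a band: BEX for `s ↦ E (emb e s i)`, `s ↦ F (emb e s i)` with the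
chosen matrices at the two ends `emb e b i = emb v 0 j`, `(v, j) = fl (W e b) i` (EME 1, FLV). LFT for the pairs `(x, y)` (`Z = Matrix κ μ ℂ × Matrix μ κ ℂ`). -/
def LFP_stmt : Prop := ∀ l : Lv, IsLv l → ∀ (κ μ : Type) [Fintype κ] [DecidableEq κ] [Fintype μ] [DecidableEq μ] (E : Am → Matrix κ κ ℂ) (F : Am → Matrix μ μ ℂ),
  ContinuousOn E (FS l) → ContinuousOn F (FS l) → (∀ y ∈ FS l, E y * E y = E y ∧ F y * F y = F y ∧ (E y).trace = (F y).trace) →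
  ∃ (x : Am → Matrix κ μ ℂ) (y : Am → Matrix μ κ ℂ), ContinuousOn x (FS l) ∧ ContinuousOn y (FS l) ∧ ∀ p ∈ FS l, x p * y p = E p ∧ y p * x p = F p

/-- ROW bnd:LR0 (medium; from LFP, BLF, XSU, EMC, CS0, K0G, K0E, K0B). The rank is injective on `K₀(C(X))`. CS0 for `C(XS B, ℂ)`, `I = ℕ`, `S F` = the functions with `f x = f y` if `x k = y k`, `k = F.sup id` (closed subalgebras, monotone: `x (k + 1) = y (k + 1)` gives `x k = y k` by the definition of `XS`; dense: BLF): `z` is the image of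
`w = k0 e - m • [1]` (K0G). The entries of `e` are `E a b (x k)`, `E a b` continuous on `FS (L k)` (`x ↦ x k` is a continuous surjection (XSU) of compact spaces to the Hausdorff space `FS (L k)`, so a quotient map), `E` is idempotent on `FS (L k)` with trace `m` (`R z = 0`). LFP with `F = 1` over `Fin m`: `x`, `y` over `C(XS B, ℂ)` with `x y = e`, `y x = 1`:
`k0 e = m • [1]` (K0E, K0B), so `z = 0`. -/
def LR0_stmt : Prop := ∀ (B : BS) (M : ℕ → ℕ → ℕ → ℕ) [CompactSpace ↥(XS B)], IsBS B M → ∀ R : K0 C(↥(XS B), ℂ) →+ C(↥(XS B), ℤ),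
  (∀ (ι : Type) [Fintype ι] (e : Matrix ι ι C(↥(XS B), ℂ)) (he : e * e = e) (x : ↥(XS B)), ((R (k0 e he) x : ℤ) : ℂ) = ∑ i, e i i x) → ∀ z, R z = 0 → z = 0

/-- ROW bnd:LK1 (short-medium, THE RESULT; from LI0, LR0, MIN, RNK, PVS, DZP, FUN, XSU). As KC1 of project pv (`Pool/Agent/helper99/PV/KC1.lean`, copy it). `R` from RNK, `F = (value at a point) ∘ R ∘ d1` (PVS, DZP). Injective: `al (d1 y) = d1 y`, so `R (d1 y)` is invariant, hence constant (minimality: MIN; `ℤ` is discrete, orbits are dense); if it is 0 then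
`d1 y = 0` (LR0), `y = ι_* w = 0` (PVS, LI0). Onto: `n • [1]` is fixed by `al` (FUN), so it is `d1 y` (PVS), `R [1] = 1`. -/
def LK1_stmt : Prop := ∀ (B : BS) (M : ℕ → ℕ → ℕ → ℕ) [CompactSpace ↥(XS B)] (α : ↥(XS B) ≃ₜ ↥(XS B)) (A : Type) [CStarAlgebra A]
  (ι : C(↥(XS B), ℂ) →⋆ₐ[ℂ] A) (u : unitary A) (c : ℤ → A →ₗ[ℂ] C(↥(XS B), ℂ)), CPr B M α ι u c → ∀ Gs : ℕ → Set ℕ, IsB1 B Gs → Nonempty (K1 A ≃+ ℤ)

end Pool.Agent.BND
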