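import Pool.Agent.helper77.BND.SpecD
import Pool.Agent.helper72.PV.SpecH

/-!
# Project bnd (MP_376aaf_an), block T: the invariant states of the system are the points of `K`. Rows bnd:T*

RULES. Page: /team-store/MP_376aaf_bands.md, section 4 (the proof of the surjectivity is simpler here: no ultrafilter, no PTE). One file per row:
`Pool/Agent/<seat>/BND/XXX.lean`, `import Pool.Agent.helper53.BND.SpecT`, `namespace Pool.Agent.BND`, auxiliary lemmas prefixed `XXX_`. Theorem line: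
`theorem XXX (hYYY : YYY_stmt) .. : XXX_stmt`; the hypotheses allowed are listed in the docstring as (from YYY, ZZZ); rows wait for nobody.
No straight double quotes, no `convert` / `congr!` on instance goals, no own macros. WDC, WSM, FLV, PMA, EMC, XCP, XSU, LPX, SUC, BLK are rows of
`Pool/Agent/helper77/BND/SpecD.lean`; `Pool.Agent.PVH.SPK_stmt` is a row of `Pool/Agent/helper72/PV/SpecH.lean`.

TWO REMARKS. (1) `B.L (k + (d + 1))` is `B.L (k + d + 1)` by `rfl`, `B.L (m + 0)` is `B.L m` by `rfl`. (2) A weight `r` (`IsWt`) is what remains of a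
point `t` of `K`: `r m v = ρ (th m v) t`. Most rows are about weights only, there is no `K` in them.
-/

set_option autoImplicit false

open scoped Topology
open Finset Filter

namespace Pool.Agent.BND

open Pool.Agent.CZ Pool.Agent.PV Pool.Agent.PVH

/-! ## Definitions -/

/-- the sum of `F` (a function on the graph of the level `k`) over the floors of the letter `(e, s)` of the level `k + d` -/
noncomputable def BS.ls (B : BS) (k d : ℕ) (F : Am → ℝ) (e : ℕ) (s : ℝ) : ℝ :=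
  ∑ i ∈ range ((B.L (k + d)).h e), F (B.lp k d e s i)

/-- weights -/
structure IsWt (B : BS) (M : ℕ → ℕ → ℕ → ℕ) (r : ℕ → ℕ → ℝ) : Prop where
  nn : ∀ m v, v < (B.L m).n → 0 ≤ r m v
  unit : ∀ m, ∑ v ∈ range (B.L m).n, ((B.L m).h v : ℝ) * r m v = 1
  eq : ∀ m v, v < (B.L m).n → r m v = ∑ v' ∈ range (B.L (m + 1)).n, (M m v' v : ℝ) * r (m + 1) v'

/-- the mean of `F` (level `k`), computed with the vertices of the level `k + d` -/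
noncomputable def BS.av (B : BS) (r : ℕ → ℕ → ℝ) (k d : ℕ) (F : Am → ℝ) : ℝ :=
  ∑ v ∈ range (B.L (k + d)).n, r (k + d) v * B.ls k d F v 0

/-- `x m v i` is a point of the space on the floor `i` of the vertex `v` of the level `m` -/
def IsPt (B : BS) (x : ℕ → ℕ → ℕ → ↥(XS B)) : Prop :=
  ∀ m v i, v < (B.L m).n → i < (B.L m).h v → (x m v i).1 m = emb (B.L m) v 0 i

/-- the mean of `f`, computed with the vertices of the level `m` -/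
noncomputable def BS.lev (B : BS) (x : ℕ → ℕ → ℕ → ↥(XS B)) (r : ℕ → ℕ → ℝ) (m : ℕ) (f : C(↥(XS B), ℝ)) : ℝ :=
  ∑ v ∈ range (B.L m).n, r m v * ∑ i ∈ range ((B.L m).h v), f (x m v i)

/-! ## 1. Sums over letters -/

/-- ROW bnd:TLS (short-medium; from WDC, WSM). (1) Induction on `d` (all `e s i`): `d = 0` is the definition of `FS`; `d + 1`: `i < h' e = hw (w (k + d) e s)` (`htw`), WDC for `Φ = lp k d`: the point is `lp k d a.1 a.2 j` with `a` in the word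
(`lett`). (2) `(L (k + d + 1)).h e = hw (w (k + d) e s)` (`htw`), and WSM for `Φ = lp k d`, `f = F`. (3) `h e` summands, each `≤ C` in absolute value by (1) (`Finset.abs_sum_le_sum_abs`, `Finset.sum_le_card_nsmul`). -/
def TLS_stmt : Prop := ∀ (B : BS) (M : ℕ → ℕ → ℕ → ℕ), IsBS B M → ∀ (k d : ℕ),
  (∀ e s i, e < (B.L (k + d)).N → s ∈ U → i < (B.L (k + d)).h e → B.lp k d e s i ∈ FS (B.L k)) ∧
  (∀ (F : Am → ℝ) e s, e < (B.L (k + d + 1)).N → s ∈ U → B.ls k (d + 1) F e s = sw (B.ls k d F) (B.w (k + d) e s)) ∧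
  ∀ (F : Am → ℝ) (C : ℝ), (∀ y ∈ FS (B.L k), |F y| ≤ C) → ∀ e s, e < (B.L (k + d)).N → s ∈ U → |B.ls k d F e s| ≤ C * (B.L (k + d)).h e

/-- ROW bnd:THH (short). `cnt` for `z v = (h v : ℤ)`: the letters `a` of the word have `a.1 < N` (`lett`; `v' < n' ≤ N'`: `lv`, `nN`), so `((W a.1 false).map z).sum = h a.1` (`ht`, cast), and the left side of `cnt` is `hw` of the word (`List.map_congr_left`), `= h' v'` (`htw`). Cast to `ℝ`. -/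
def THH_stmt : Prop := ∀ (B : BS) (M : ℕ → ℕ → ℕ → ℕ), IsBS B M → ∀ m v', v' < (B.L (m + 1)).n →
  ∑ v ∈ range (B.L m).n, (M m v' v : ℝ) * ((B.L m).h v : ℝ) = ((B.L (m + 1)).h v' : ℝ)

/-- ROW bnd:TS1 (short-medium; from TLS). `st1` for `σ e s = ls k d F e s / C` (`|σ e s| ≤ h e`: TLS 3); `sw σ (w (k + d) v' 0) = sw (ls k d F) (..) / C = ls k (d + 1) F v' 0 / C` (TLS 2; `List.sum_map_div` or induction); multiply by `C`. -/
def TS1_stmt : Prop := ∀ (B : BS) (M : ℕ → ℕ → ℕ → ℕ), IsBS B M → ∀ (k d : ℕ) (F : Am → ℝ) (C : ℝ), 0 < C → (∀ y ∈ FS (B.L k), |F y| ≤ C) →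
  ∀ v', v' < (B.L (k + d + 1)).n →
    |B.ls k (d + 1) F v' 0 - ∑ v ∈ range (B.L (k + d)).n, (M (k + d) v' v : ℝ) * B.ls k d F v 0| ≤ C * (1 / 2) ^ (k + d) * (B.L (k + d + 1)).h v'

/-- ROW bnd:TS2 (short-medium; from TLS). If `ls k (d + 1) F v 0 ≤ V h v` for the vertices, then `ls k (d + 1) F e s ≤ (V + C / 2 ^ (k + d)) h e` for all letters. `st2` for `σ e s = ls k d F e s / C` (TLS 3): there is `r ∈ U` with
`|sw σ (w e s) - ((1 - r) S₀ + r S₁)| ≤ 2 ^ -(k + d) h e`, `S_b = ((W e b).map fun v => sw σ (w v 0)).sum`, `C sw σ (w v 0) = ls k (d + 1) F v 0 ≤ V h v` for `v ∈ W e b` (`mem`: `v < n`; TLS 2), so `C S_b ≤ V ((W e b).map h).sum = V h e` (`ht`; `List.sum_le_sum`). Finally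
`ls k (d + 1) F e s = C sw σ (w e s)` (TLS 2). -/
def TS2_stmt : Prop := ∀ (B : BS) (M : ℕ → ℕ → ℕ → ℕ), IsBS B M → ∀ (k d : ℕ) (F : Am → ℝ) (C : ℝ), 0 < C → (∀ y ∈ FS (B.L k), |F y| ≤ C) →
  ∀ V : ℝ, (∀ v, v < (B.L (k + d + 1)).n → B.ls k (d + 1) F v 0 ≤ V * (B.L (k + d + 1)).h v) →
    ∀ e s, e < (B.L (k + d + 1)).N → s ∈ U → B.ls k (d + 1) F e s ≤ (V + C * (1 / 2) ^ (k + d)) * (B.L (k + d + 1)).h e

/-- ROW bnd:TSP (short-medium; from TS1). One step: `av (d + 1) - av d = ∑ v', r' v' * (ls' v' - ∑ v, M v' v * ls v)` because `∑ v', r' v' * ∑ v, M v' v * ls v = ∑ v, ls v * ∑ v', M v' v * r' v' = ∑ v, ls v * r v = av d` (`eq`; `Finset.sum_comm`). By TS1 the absolute value is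
`≤ ∑ v', r' v' * (C (1 / 2) ^ (k + d) h' v') = C (1 / 2) ^ (k + d)` (`nn`, `unit`). Then by induction on `j`: `|av (d + j) - av d| ≤ 2 C ((1 / 2) ^ (k + d) - (1 / 2) ^ (k + d + j))`. -/
def TSP_stmt : Prop := ∀ (B : BS) (M : ℕ → ℕ → ℕ → ℕ), IsBS B M → ∀ (r : ℕ → ℕ → ℝ), IsWt B M r → ∀ (k : ℕ) (F : Am → ℝ) (C : ℝ), 0 < C →
  (∀ y ∈ FS (B.L k), |F y| ≤ C) → ∀ d j, |B.av r k (d + j) F - B.av r k d F| ≤ 2 * C * (1 / 2) ^ (k + d)

/-! ## 2. The limit -/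

/-- ROW bnd:TPT (short; from XSU). Choice: `emb (L m) v 0 i ∈ FS (L m)` for `v < n ≤ N`, `i < h v`; for the other `m, v, i` any point (there is one: XSU for `emb (L 0) 0 0 0`, `n0`, `pos`). -/
def TPT_stmt : Prop := ∀ (B : BS) (M : ℕ → ℕ → ℕ → ℕ), IsBS B M → ∃ x, IsPt B x

/-- ROW bnd:TLL (short; from LPX). `f (x (k + d) v i) = F ((x (k + d) v i).1 k) = F (lp k d v 0 i)` by LPX (`v < n ≤ N`, `0 ∈ U`). -/
def TLL_stmt : Prop := ∀ (B : BS) (M : ℕ → ℕ → ℕ → ℕ), IsBS B M → ∀ x, IsPt B x → ∀ (r : ℕ → ℕ → ℝ) (k : ℕ) (F : Am → ℝ) (f : C(↥(XS B), ℝ)),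
  (∀ y, f y = F (y.1 k)) → ∀ d, B.lev x r (k + d) f = B.av r k d F

/-- ROW bnd:TLB (short). `lev` is linear in `f`, positive, `lev 1 = 1` (`unit`), `|lev f - lev g| ≤ c` if `|f - g| ≤ c`: `|∑ v, r v * ∑ i, (f - g)| ≤ ∑ v, r v * (h v * c) = c`. -/
def TLB_stmt : Prop := ∀ (B : BS) (M : ℕ → ℕ → ℕ → ℕ) (x : ℕ → ℕ → ℕ → ↥(XS B)) (r : ℕ → ℕ → ℝ), IsWt B M r → ∀ m,
  (∀ f g : C(↥(XS B), ℝ), B.lev x r m (f + g) = B.lev x r m f + B.lev x r m g) ∧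
  (∀ (a : ℝ) (f : C(↥(XS B), ℝ)), B.lev x r m (a • f) = a * B.lev x r m f) ∧
  (∀ f : C(↥(XS B), ℝ), (∀ y, 0 ≤ f y) → 0 ≤ B.lev x r m f) ∧ B.lev x r m 1 = 1 ∧
  ∀ (f g : C(↥(XS B), ℝ)) (c : ℝ), (∀ y, |f y - g y| ≤ c) → |B.lev x r m f - B.lev x r m g| ≤ c

/-- ROW bnd:TDN (medium; from PMA, XCP, EMC). Density of the functions of finite level: Stone-Weierstrass (`ContinuousMap.exists_mem_subalgebra_near_continuousMap_of_separatesPoints`) for the subalgebra `{f | ∃ k F, ContinuousOn F (FS (L k)) ∧ ∀ y, f y = F (y.1 k)}` of `C(XS B, ℝ)` (`XS B` is compact: XCP).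
A function of level `k` is of level `k + 1`: `F ∘ p k` with the map `p` of PMA (`cont`, `maps`; `y.1 k = p k (y.1 (k + 1))`: `y.1 (k + 1) = emb e s i`, both are `st k e s i`: definition of `XS`, `val`), hence of every level `≥ k`; so sums and products are of the level `max`. Constants: clear. Points: if `y ≠ y'`
there are `k`, `c` with `y.1 k c ≠ y'.1 k c`; take the real or the imaginary part of the coordinate `c`. The bound `C`: `FS (L k)` is compact (EMC; `IsCompact.exists_bound_of_continuousOn`), make it positive. -/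
def TDN_stmt : Prop := ∀ (B : BS) (M : ℕ → ℕ → ℕ → ℕ), IsBS B M → ∀ (f : C(↥(XS B), ℝ)) (ε : ℝ), 0 < ε →
  ∃ (k : ℕ) (F : Am → ℝ) (f' : C(↥(XS B), ℝ)) (C : ℝ), 0 < C ∧ ContinuousOn F (FS (B.L k)) ∧ (∀ y ∈ FS (B.L k), |F y| ≤ C) ∧ (∀ y, f' y = F (y.1 k)) ∧ ∀ y, |f y - f' y| ≤ ε

/-- ROW bnd:TCY (short-medium; from TDN, TSP, TLL, TLB). `lev m f` is a Cauchy sequence, uniformly in the weight. TDN for `ε / 6`: `k, F, f', C`. Let `2 C (1 / 2) ^ (k + d) ≤ ε / 6`, `m₀ = k + d`. For `m = k + d + j`: `|lev m f' - lev m₀ f'| = |av (d + j) - av d| ≤ ε / 6` (TLL, TSP), and `|lev f - lev f'| ≤ ε / 6` (TLB). -/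
def TCY_stmt : Prop := ∀ (B : BS) (M : ℕ → ℕ → ℕ → ℕ), IsBS B M → ∀ x, IsPt B x → ∀ (f : C(↥(XS B), ℝ)) (ε : ℝ), 0 < ε →
  ∃ m₀, ∀ m m', m₀ ≤ m → m₀ ≤ m' → ∀ r, IsWt B M r → |B.lev x r m f - B.lev x r m' f| ≤ ε

/-- ROW bnd:TWT (short). `ρ (∑ v, h v • th m v) t = ρ g t = 1`, `th_eq`, `pos`; `map_sum`, `map_nsmul`, evaluation at `t` of sums and multiples in `C(K, ℝ)`. -/
def TWT_stmt : Prop := ∀ (E : Type) [AddCommGroup E] [Module ℝ E] [TopologicalSpace E] (K : Set E) (H : Type) [AddCommGroup H] (ρ : H →+ C(K, ℝ)) (g : H),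
  KD K ρ g → ∀ (B : BS) (M : ℕ → ℕ → ℕ → ℕ) (th : ℕ → ℕ → H) (H' : AddSubgroup H), IsTh B M (KP K ρ) g th H' →
  ∀ t : K, IsWt B M (fun m v => ρ (th m v) t)

/-- ROW bnd:TLI (medium; from TWT, TLB, TCY). The functions `u m f = ∑ v, (∑ i, f (x m v i)) • ρ (th m v) ∈ C(K, ℝ)`, `u m f t = lev m f` for the weight of `t` (TWT), are affine (`KD.aff`) and by TCY uniformly Cauchy (`K` is compact: `isCompact_iff_compactSpace`; `C(K, ℝ)` is complete), so they converge uniformly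
to `Φ f`. The properties pass to the limit (pointwise, `tendsto_nhds_unique`, `ge_of_tendsto'`): linear, affine, positive, `Φ 1 = 1` (TLB). -/
def TLI_stmt : Prop := ∀ (E : Type) [AddCommGroup E] [Module ℝ E] [TopologicalSpace E] (K : Set E) (H : Type) [AddCommGroup H] (ρ : H →+ C(K, ℝ)) (g : H),
  KD K ρ g → ∀ (B : BS) (M : ℕ → ℕ → ℕ → ℕ) (th : ℕ → ℕ → H) (H' : AddSubgroup H), IsBS B M → IsTh B M (KP K ρ) g th H' → ∀ x, IsPt B x →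
  ∃ Φ : C(↥(XS B), ℝ) →ₗ[ℝ] C(K, ℝ), (∀ f, IsAff (Φ f)) ∧ (∀ f, (∀ y, 0 ≤ f y) → ∀ t, 0 ≤ Φ f t) ∧ Φ 1 = 1 ∧
    ∀ (f : C(↥(XS B), ℝ)) (ε : ℝ), 0 < ε → ∃ m₀, ∀ m, m₀ ≤ m → ∀ t : K, |B.lev x (fun m v => ρ (th m v) t) m f - Φ f t| ≤ ε

/-! ## 3. Invariance -/

/-- ROW bnd:TIV (medium; from SUC, LPX). `m = k + d`, `x_i = x m v i`. For `i + 1 < h v`: `(α x_i).1 m = emb (L m) v 0 (i + 1)` (SUC 1; `Can` for a vertex, `0 ∈ U`), so by LPX `(α x_i).1 k = lp k d v 0 (i + 1) = (x_(i + 1)).1 k`, so `f (α x_i) = f (x_(i + 1))`. With `h v = h₀ + 1`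
(`Finset.sum_range_succ`, `Finset.sum_range_succ'`): `∑ i, f (α x_i) - ∑ i, f x_i = f (α x_(h₀)) - f x_0`, of absolute value `≤ 2 C`. `h v ≥ m + 1` (`big`), so `(m + 1) ∑ v, r v ≤ ∑ v, h v * r v = 1`. -/
def TIV_stmt : Prop := ∀ (B : BS) (M : ℕ → ℕ → ℕ → ℕ), IsBS B M → ∀ α : ↥(XS B) ≃ₜ ↥(XS B), IsAl B α → IsAlI B α → ∀ x, IsPt B x → ∀ r, IsWt B M r →
  ∀ (k : ℕ) (F : Am → ℝ) (f : C(↥(XS B), ℝ)) (C : ℝ), (∀ y, f y = F (y.1 k)) → (∀ y, |f y| ≤ C) →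
    ∀ d, |B.lev x r (k + d) (f.comp (α : C(↥(XS B), ↥(XS B)))) - B.lev x r (k + d) f| ≤ 2 * C / ((k + d : ℕ) + 1)

/-- ROW bnd:TIN (short-medium; from TIV, TDN, TLB). For a function `f'` of finite level both sides are the limits of `lev (k + d)` and are equal by TIV (`|f'| ≤ C` because `y.1 k ∈ FS (L k)`). In general: `|f - f'| ≤ ε` (TDN); by TLB (last claim) and the limit `|φ f - φ f'| ≤ ε`,
`|φ (f ∘ α) - φ (f' ∘ α)| ≤ ε`; so `|φ (f ∘ α) - φ f| ≤ 2 ε` for all `ε > 0`. -/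
def TIN_stmt : Prop := ∀ (B : BS) (M : ℕ → ℕ → ℕ → ℕ), IsBS B M → ∀ α : ↥(XS B) ≃ₜ ↥(XS B), IsAl B α → IsAlI B α → ∀ x, IsPt B x → ∀ r, IsWt B M r →
  ∀ φ : C(↥(XS B), ℝ) →ₗ[ℝ] ℝ, (∀ f, Tendsto (fun m => B.lev x r m f) atTop (𝓝 (φ f))) →
    ∀ f : C(↥(XS B), ℝ), φ (f.comp (α : C(↥(XS B), ↥(XS B)))) = φ f

/-! ## 4. Injectivity -/

/-- ROW bnd:TGF (short-medium; from FLV). `F y = ∑ v ∈ range n, ∑ j ∈ range (h v), g v * (y (v, j)).re`, continuous (`Am` has the product topology). `F (emb v s i) = g v` (`emb` is `Pi.single (v, i) 1`). For a band, `q_b = fl h (W e b) i` (`i < h e = ((W e b).map h).sum`: `ht`; FLV: `q_b.2 < h q_b.1` and `q_b.1 ∈ W e b`, so `q_b.1 < n`: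
`mem`): `F (emb e s i) = (1 - s) g q_0.1 + s g q_1.1`, because the third summand of `emb` lives at `(e, i)`, `n ≤ e`. -/
def TGF_stmt : Prop := ∀ l : Lv, IsLv l → ∀ (g : ℕ → ℝ) (C : ℝ), (∀ v, v < l.n → |g v| ≤ C) →
  ∃ F : Am → ℝ, Continuous F ∧ (∀ y ∈ FS l, |F y| ≤ C) ∧ ∀ v s i, v < l.n → i < l.h v → F (emb l v s i) = g v

/-- ROW bnd:TIZ (short-medium; from THH). Induction on `d`. `d = 0`: `z v = if v = v₀ then 1 else 0`, `≤ h v` (`pos`). `d + 1`: `z' v' = ∑ v ∈ range (L (k + d)).n, M (k + d) v' v * z v ≤ ∑ M h = h' v'` (THH, in `ℝ`), and `r k v₀ = ∑ v, z v * r v = ∑ v, z v * ∑ v', M v' v * r' v' = ∑ v', z' v' * r' v'` (`eq`). -/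
def TIZ_stmt : Prop := ∀ (B : BS) (M : ℕ → ℕ → ℕ → ℕ), IsBS B M → ∀ k v₀, v₀ < (B.L k).n → ∀ d, ∃ z : ℕ → ℕ,
  (∀ v, v < (B.L (k + d)).n → z v ≤ (B.L (k + d)).h v) ∧ ∀ r, IsWt B M r → r k v₀ = ∑ v ∈ range (B.L (k + d)).n, (z v : ℝ) * r (k + d) v

/-- ROW bnd:TIJ (medium; from TSP, TLL, TGF, TIZ). Let `v₀ < (L k).n`, `m = k + d`, `z` from TIZ, `F` from TGF for `L m`, `g v = z v / h v`, `C = 1`; `f y = F (y.1 m)`, continuous. `av r m 0 F = ∑ v, r m v * ∑ i ∈ range (h v), F (emb (L m) v 0 i) = ∑ v, r m v * z v = r k v₀`. By TLL (with `k := m`) and TSP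
`|lev (m + j) f - r k v₀| ≤ 2 (1 / 2) ^ m` for all `j`, so the common limit `a` satisfies `|a - r k v₀| ≤ 2 (1 / 2) ^ m`, and the same for `r'`. So `|r k v₀ - r' k v₀| ≤ 4 (1 / 2) ^ (k + d)` for all `d`. -/
def TIJ_stmt : Prop := ∀ (B : BS) (M : ℕ → ℕ → ℕ → ℕ), IsBS B M → ∀ x, IsPt B x → ∀ r r', IsWt B M r → IsWt B M r' →
  (∀ f : C(↥(XS B), ℝ), ∃ a, Tendsto (fun m => B.lev x r m f) atTop (𝓝 a) ∧ Tendsto (fun m => B.lev x r' m f) atTop (𝓝 a)) →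
  ∀ k v, v < (B.L k).n → r k v = r' k v

/-- ROW bnd:TUQ (short-medium; from SPK of PVH). If `KP K ρ y` then `y = ∑ v, c v • th m v` (`span`), so `ρ y t = ρ y t'`. For any `y` there is `N : ℕ` with `KP K ρ (y + N • g)` (`ρ y` is bounded on the compact set `K`, `ρ g = 1`), and `KP K ρ g`; so `ρ y t = ρ y t'`. SPK. -/
def TUQ_stmt : Prop := ∀ (E : Type) [AddCommGroup E] [Module ℝ E] [TopologicalSpace E] [IsTopologicalAddGroup E] [ContinuousSMul ℝ E]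
  [LocallyConvexSpace ℝ E] [T2Space E] (K : Set E) (H : Type) [AddCommGroup H] (ρ : H →+ C(K, ℝ)) (g : H),
  KD K ρ g → ∀ (B : BS) (M : ℕ → ℕ → ℕ → ℕ) (th : ℕ → ℕ → H) (H' : AddSubgroup H), IsTh B M (KP K ρ) g th H' →
  ∀ t t' : K, (∀ m v, v < (B.L m).n → ρ (th m v) t = ρ (th m v) t') → t = t'

/-! ## 5. Surjectivity -/

/-- ROW bnd:TBK (medium; from SUC, BLK, LPX). `m = k + d`, `A = ∑ e ∈ range N, h e` (`≥ h e` for `e < N`), `D = 2 (C + |R|) A`. (A) If `y.1 m = emb e s 0` with `Can e s`, then `∑ j < n, f (α ^ j y) ≤ n R + (C + |R|) A`: strong induction on `n`. If `n < h e`: the sum is `≤ n C ≤ A C`, and `n R ≥ -A |R|`. If `h e ≤ n`: for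
`j < h e` `(α ^ j y).1 m = emb e s j` (SUC 1, induction on `j`), so `f (α ^ j y) = F (lp k d e s j)` (LPX) and these terms have the sum `ls k d F e s ≤ R h e`; `α ^ (h e) y` is at a floor 0 of a canonical letter (SUC 2 for `α ^ (h e - 1) y`); induction for `n - h e < n` (`Finset.sum_range_add`-like splitting:
`Finset.range_eq_Ico`, `Finset.sum_Ico_consecutive` or `Finset.sum_range_add`). (B) In general BLK gives `e, s, i`, and for `z = α ^ (0 - i) y` `z.1 m = emb e s 0`; `α ^ j y = α ^ (j + i) z`; the sum is `∑ j < n + i - ∑ j < i ≤ (n + i) R + (C + |R|) A + i C ≤ n R + D`. -/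
def TBK_stmt : Prop := ∀ (B : BS) (M : ℕ → ℕ → ℕ → ℕ), IsBS B M → ∀ α : ↥(XS B) ≃ₜ ↥(XS B), IsAl B α → IsAlI B α →
  ∀ (k d : ℕ) (F : Am → ℝ) (f : C(↥(XS B), ℝ)) (C R : ℝ), (∀ y, f y = F (y.1 k)) → (∀ y, |f y| ≤ C) →
    (∀ e s, Can (B.L (k + d)) e s → B.ls k d F e s ≤ R * (B.L (k + d)).h e) →
    ∃ D : ℝ, ∀ (y : ↥(XS B)) (n : ℕ), ∑ j ∈ range n, f ((α ^ j) y) ≤ n * R + D

/-- ROW bnd:TBI (short-medium; only Mathlib). `φ (f ∘ α ^ j) = φ f` (induction, `inv`); `n φ f = φ (∑ j < n, f ∘ α ^ j) ≤ φ ((n R + D) • 1) = n R + D` (`nonneg` for the difference, `one`); so `φ f ≤ R + D / n` for all `n ≥ 1`. -/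
def TBI_stmt : Prop := ∀ (X : Type) [TopologicalSpace X] (α : X ≃ₜ X) (φ : InvSt α) (f : C(X, ℝ)) (R D : ℝ),
  (∀ (y : X) (n : ℕ), ∑ j ∈ range n, f ((α ^ j) y) ≤ n * R + D) → φ.φ f ≤ R

/-- ROW bnd:TKL (medium). `S m z = ∑ v ∈ range (L m).n, z v • th m v`. If `z (m + 1) = M z m` then `S (m + 1) (z (m + 1)) = S m (z m)` (`th_eq`, `Finset.sum_comm`, `Finset.smul_sum`, `smul_smul`). So `S m (z m) = y` for all `m ≥ m₀`, `y = S m₀ (z m₀)`. `span` for `-y`: `m'`, `c : ℕ → ℕ` with `-y = S m' c`; let `c' m' = c`, `c' (m + 1) = M (c' m)` for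
`m ≥ m'` (natural numbers, recursion on `m - m'`), so `-y = S m (c' m)` for `m ≥ m'`. `m₁ = max m₀ m' + 1`: for `m ≥ max m₀ m'`, `S m (z m + c' m) = 0`, so by `kill` `∑ v, M v' v * (z m v + c' m v) = 0`, i.e. `z (m + 1) v' = - c' (m + 1) v' ≤ 0`. -/
def TKL_stmt : Prop := ∀ (H : Type) [AddCommGroup H] (B : BS) (M : ℕ → ℕ → ℕ → ℕ) (P : H → Prop) (g : H) (th : ℕ → ℕ → H) (H' : AddSubgroup H),
  IsTh B M P g th H' → ∀ (m₀ : ℕ) (z : ℕ → ℕ → ℤ),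
  (∀ m v', m₀ ≤ m → v' < (B.L (m + 1)).n → z (m + 1) v' = ∑ v ∈ range (B.L m).n, (M m v' v : ℤ) * z m v) →
  P (-∑ v ∈ range (B.L m₀).n, z m₀ v • th m₀ v) → ∃ m₁, m₀ ≤ m₁ ∧ ∀ m, m₁ ≤ m → ∀ v, v < (B.L m).n → z m v ≤ 0

/-- ROW bnd:TPR (short-medium; from THH). Induction on `m ≥ m₀` (`Nat.le_induction`) of `a m v ≤ (μ + 2 C ((1 / 2) ^ m₀ - (1 / 2) ^ m)) h v + z m v`: multiply by `M m v' v ≥ 0`, sum, use THH (`∑ M h = h'`) and `2 C ((1 / 2) ^ m₀ - (1 / 2) ^ m) + C (1 / 2) ^ m = 2 C ((1 / 2) ^ m₀ - (1 / 2) ^ (m + 1))`. -/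
def TPR_stmt : Prop := ∀ (B : BS) (M : ℕ → ℕ → ℕ → ℕ), IsBS B M → ∀ (m₀ : ℕ) (a z : ℕ → ℕ → ℝ) (C μ : ℝ), 0 ≤ C →
  (∀ m v', m₀ ≤ m → v' < (B.L (m + 1)).n → a (m + 1) v' ≤ ∑ v ∈ range (B.L m).n, (M m v' v : ℝ) * a m v + C * (1 / 2) ^ m * (B.L (m + 1)).h v') →
  (∀ m v', m₀ ≤ m → v' < (B.L (m + 1)).n → z (m + 1) v' = ∑ v ∈ range (B.L m).n, (M m v' v : ℝ) * z m v) →
  (∀ v, v < (B.L m₀).n → a m₀ v ≤ μ * (B.L m₀).h v + z m₀ v) →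
  ∀ m, m₀ ≤ m → ∀ v, v < (B.L m).n → a m v ≤ (μ + 2 * C * (1 / 2) ^ m₀) * (B.L m).h v + z m v

/-- ROW bnd:TCL (medium; from TWT, TS1, TS2, TKL, TPR, TBK, TBI). Let `δ > 0`; it suffices to show `φ f ≤ μ + 3 δ`. Choose `d` with `2 C (1 / 2) ^ (k + d) ≤ δ` and `av ≤ μ` for all `t`; `m₀ = k + d`; `q : ℕ` with `1 < q δ`. Put `z₀ v = ⌈q (ls k d F v 0 - (μ + δ) h v)⌉`, and let `z : ℕ → ℕ → ℤ` be the sequence with `z m₀ = z₀`,
`z (m + 1) v' = ∑ v, M m v' v * z m v` for `m ≥ m₀` (`z m = Nat.rec z₀ (..) (m - m₀)`). `ρ (∑ v, z₀ v • th m₀ v) t = ∑ v, z₀ v * r v ≤ ∑ v, (q (ls v - (μ + δ) h v) + 1) r v ≤ q (av - (μ + δ)) + 1 ≤ - q δ + 1 < 0` (`r` = the weight of `t`: TWT; `∑ v, r v ≤ ∑ v, h v * r v = 1`, `h v ≥ 1`). So TKL gives `m₁` with `z m v ≤ 0` for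
`m ≥ m₁`. TPR for `a m v = ls k (m - k) F v 0` (for `m = k + j`: TS1), `z m v / q`, `C`, `μ + δ`: `ls k (m - k) F v 0 ≤ (μ + 2 δ) h v` for `m ≥ max m₀ m₁`. Take `m = k + j + 1 ≥ m₁`, `k + j ≥ m₀`: by TS2 `ls k (j + 1) F e s ≤ (μ + 2 δ + C (1 / 2) ^ (k + j)) h e ≤ (μ + 3 δ) h e`. TBK (with `d := j + 1`, `R = μ + 3 δ`;
`|f y| ≤ C` because `y.1 k ∈ FS (L k)`), TBI. -/
def TCL_stmt : Prop := ∀ (E : Type) [AddCommGroup E] [Module ℝ E] [TopologicalSpace E] (K : Set E) (H : Type) [AddCommGroup H] (ρ : H →+ C(K, ℝ)) (g : H),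
  KD K ρ g → ∀ (B : BS) (M : ℕ → ℕ → ℕ → ℕ) (th : ℕ → ℕ → H) (H' : AddSubgroup H), IsBS B M → IsTh B M (KP K ρ) g th H' →
  ∀ α : ↥(XS B) ≃ₜ ↥(XS B), IsAl B α → IsAlI B α → ∀ (φ : InvSt α) (k : ℕ) (F : Am → ℝ) (f : C(↥(XS B), ℝ)) (C μ : ℝ), 0 < C →
    (∀ y ∈ FS (B.L k), |F y| ≤ C) → (∀ y, f y = F (y.1 k)) →
    (∀ d₀, ∃ d, d₀ ≤ d ∧ ∀ t : K, B.av (fun m v => ρ (th m v) t) k d F ≤ μ) → φ.φ f ≤ μ

/-- ROW bnd:TMM (medium; only Mathlib; compare the proof of PTE, `Pool/Agent/helper72/PV/SpecH.lean`, and its file). Suppose not. For every `t : K` there is `f` with `ψ f ≠ Φ f t`; replacing `f` by `-f`: `Φ f t < ψ f`. The open sets `{t | Φ f t < ψ f}` cover the compact set `K`; finite subcover `f ∈ S`, `S : Finset V`. `Y t = (ψ f - Φ f t)_(f ∈ S)`,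
a point of `(↥S → ℝ)`; the image of `Y` is compact and convex (`K` convex, `Φ f` affine) and does not contain 0. Hahn-Banach (`geometric_hahn_banach_compact_closed` or `geometric_hahn_banach_point_closed`): a linear functional `c` with `0 < δ ≤ ∑ f, c f * Y t f` for all `t`. For `f₀ = ∑ f, c f • f`: `ψ f₀ - Φ f₀ t ≥ δ` for all `t`, a contradiction. -/
def TMM_stmt : Prop := ∀ (E : Type) [AddCommGroup E] [Module ℝ E] [TopologicalSpace E] (K : Set E), IsCompact K → Convex ℝ K →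
  ∀ (V : Type) [AddCommGroup V] [Module ℝ V] (Φ : V →ₗ[ℝ] C(K, ℝ)) (ψ : V →ₗ[ℝ] ℝ), (∀ f, IsAff (Φ f)) → (∀ f, ∃ t, ψ f ≤ Φ f t) →
    ∃ t, ∀ f, ψ f = Φ f t

/-- ROW bnd:TSU (medium; from TCL, TDN, TLL, TMM). By TMM it suffices to find for every `f` a `t` with `ψ f ≤ Φ f t`. `K` is compact and nonempty: let `Φ f` be maximal at `t₀`. Let `ε > 0`, `f'` as in TDN (`|f - f'| ≤ ε`); `|Φ f t - Φ f' t| ≤ ε` (positivity and `Φ 1 = 1`), `|ψ f - ψ f'| ≤ ε`. For all large `d` and all `t`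
`av k d F = lev (k + d) f' ≤ Φ f' t + ε ≤ Φ f t₀ + 2 ε =: μ` (TLL), so `ψ f' ≤ μ` (TCL), `ψ f ≤ Φ f t₀ + 3 ε`. -/
def TSU_stmt : Prop := ∀ (E : Type) [AddCommGroup E] [Module ℝ E] [TopologicalSpace E] (K : Set E) (H : Type) [AddCommGroup H] (ρ : H →+ C(K, ℝ)) (g : H),
  KD K ρ g → ∀ (B : BS) (M : ℕ → ℕ → ℕ → ℕ) (th : ℕ → ℕ → H) (H' : AddSubgroup H), IsBS B M → IsTh B M (KP K ρ) g th H' →
  ∀ α : ↥(XS B) ≃ₜ ↥(XS B), IsAl B α → IsAlI B α → ∀ x, IsPt B x → ∀ Φ : C(↥(XS B), ℝ) →ₗ[ℝ] C(K, ℝ), (∀ f, IsAff (Φ f)) →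
  (∀ f, (∀ y, 0 ≤ f y) → ∀ t, 0 ≤ Φ f t) → Φ 1 = 1 →
  (∀ (f : C(↥(XS B), ℝ)) (ε : ℝ), 0 < ε → ∃ m₀, ∀ m, m₀ ≤ m → ∀ t : K, |B.lev x (fun m v => ρ (th m v) t) m f - Φ f t| ≤ ε) →
  ∀ ψ : InvSt α, ∃ t, ∀ f, ψ.φ f = Φ f t

/-- ROW bnd:TST (short-medium, THE RESULT of the block; from TPT, TLI, TWT, TIN, TIJ, TUQ, TSU, TLL). `x` from TPT, `Φ` from TLI, `φ t = ⟨f ↦ Φ f t, ..⟩`, `inv` by TIN for the weight of `t` (TWT). Injective: TIJ and TUQ. Surjective: TSU. Last claim: the sum is `av k d F = lev (k + d) f` (TLL). -/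
def TST_stmt : Prop := ∀ (E : Type) [AddCommGroup E] [Module ℝ E] [TopologicalSpace E] [IsTopologicalAddGroup E] [ContinuousSMul ℝ E]
  [LocallyConvexSpace ℝ E] [T2Space E] (K : Set E) (H : Type) [AddCommGroup H] (ρ : H →+ C(K, ℝ)) (g : H),
  KD K ρ g → ∀ (B : BS) (M : ℕ → ℕ → ℕ → ℕ) (th : ℕ → ℕ → H) (H' : AddSubgroup H), IsBS B M → IsTh B M (KP K ρ) g th H' →
  ∀ α : ↥(XS B) ≃ₜ ↥(XS B), IsAl B α → IsAlI B α →
  ∃ φ : K → InvSt α, Function.Bijective φ ∧ (∀ f : C(↥(XS B), ℝ), ∃ a : C(K, ℝ), IsAff a ∧ ∀ t, a t = (φ t).φ f) ∧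
    ∀ (k : ℕ) (F : Am → ℝ), ContinuousOn F (FS (B.L k)) → ∀ f : C(↥(XS B), ℝ), (∀ y, f y = F (y.1 k)) → ∀ t : K,
      Tendsto (fun d => ∑ v ∈ range (B.L (k + d)).n, ρ (th (k + d) v) t * ∑ i ∈ range ((B.L (k + d)).h v), F (B.lp k d v 0 i)) atTop
        (𝓝 ((φ t).φ f))

end Pool.Agent.BND
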